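import Pool.Agent.Helper35.PI.St3

namespace Helper13.PI

open Helper35.PI
open scoped BigOperators

/-- the symmetric tensor built from a vector -/
private noncomputable def Wt {n N : ℕ} (η : Fin n → EE N) (i j k : Fin n) : EE N :=
  (if i = j then η k else 0) + (if i = k then η j else 0) + (if j = k then η i else 0)

private theorem Wt_sym {n N : ℕ} (η : Fin n → EE N) : Sym3V (Wt η) := by
  constructor
  · intro i j k
    unfold Wt
    by_cases h : i = j
    · subst h; rfl
    · have h' : ¬ j = i := fun e => h e.symm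
      rw [if_neg h, if_neg h']; abel
  · intro i j k
    unfold Wt
    by_cases h : j = k
    · subst h; rfl
    · have h' : ¬ k = j := fun e => h e.symm
      rw [if_neg h, if_neg h']; abel

private theorem inner_Wt {n N : ℕ} (S : Fin n → Fin n → Fin n → EE N) (hS : Sym3V S)
    (η : Fin n → EE N) :
    ∑ i, ∑ j, ∑ k, inner ℝ (S i j k) (Wt η i j k) = 3 * ∑ k, inner ℝ (et S k) (η k) := by
  have key : ∑ k, inner ℝ (et S k) (η k) = ∑ k, ∑ i, inner ℝ (S k i i) (η k) := by
    refine Finset.sum_congr rfl fun k _ => ?_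
    unfold et
    rw [sum_inner]
    refine Finset.sum_congr rfl fun i _ => ?_
    rw [hS.2 i i k, hS.1 i k i]
  have e : ∀ i j k, inner ℝ (S i j k) (Wt η i j k)
      = (if i = j then inner ℝ (S i j k) (η k) else 0)
        + (if i = k then inner ℝ (S i j k) (η j) else 0)
        + (if j = k then inner ℝ (S i j k) (η i) else 0) := by
    intro i j k
    unfold Wt
    rw [inner_add_right, inner_add_right]
    congr 1
    · congr 1
      · split_ifs <;> simp
      · split_ifs <;> simp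
    · split_ifs <;> simp
  have h1 : ∑ i, ∑ j, ∑ k, (if i = j then inner ℝ (S i j k) (η k) else 0)
      = ∑ k, ∑ i, inner ℝ (S k i i) (η k) := by
    have : ∀ i, ∑ j, ∑ k, (if i = j then inner ℝ (S i j k) (η k) else 0)
        = ∑ k, inner ℝ (S i i k) (η k) := by
      intro i
      rw [Finset.sum_comm]
      refine Finset.sum_congr rfl fun k _ => ?_
      rw [Finset.sum_ite_eq]
      simp
    simp_rw [this]
    rw [Finset.sum_comm]
    refine Finset.sum_congr rfl fun k _ => Finset.sum_congr rfl fun i _ => ?_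
    rw [hS.2 i i k, hS.1 i k i]
  have h2 : ∑ i, ∑ j, ∑ k, (if i = k then inner ℝ (S i j k) (η j) else 0)
      = ∑ k, ∑ i, inner ℝ (S k i i) (η k) := by
    have : ∀ i j, ∑ k, (if i = k then inner ℝ (S i j k) (η j) else 0)
        = inner ℝ (S i j i) (η j) := by
      intro i j
      rw [Finset.sum_ite_eq]
      simp
    simp_rw [this]
    rw [Finset.sum_comm]
    refine Finset.sum_congr rfl fun k _ => Finset.sum_congr rfl fun i _ => ?_
    rw [hS.1 i k i]
  have h3 : ∑ i, ∑ j, ∑ k, (if j = k then inner ℝ (S i j k) (η i) else 0)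
      = ∑ k, ∑ i, inner ℝ (S k i i) (η k) := by
    refine Finset.sum_congr rfl fun i _ => Finset.sum_congr rfl fun j _ => ?_
    rw [Finset.sum_ite_eq]
    simp
  simp_rw [e, Finset.sum_add_distrib]
  rw [h1, h2, h3, key]
  ring

/-- T3. -/
theorem hT3 : StT3 := by
  intro n N T hT
  have hn : (0 : ℝ) < (n : ℝ) + 2 := by positivity
  set η : Fin n → EE N := fun k => et T k with hη
  set E : ℝ := ∑ k, ‖et T k‖ ^ 2 with hE
  have hTW : ∑ i, ∑ j, ∑ k, inner ℝ (T i j k) (Wt η i j k) = 3 * E := by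
    rw [inner_Wt T hT η, hE]
    congr 1
    refine Finset.sum_congr rfl fun k _ => ?_
    rw [hη, real_inner_self_eq_norm_sq]
  have htr : ∀ k, et (Wt η) k = ((n : ℝ) + 2) • η k := by
    intro k
    unfold et Wt
    rw [Finset.sum_add_distrib, Finset.sum_add_distrib]
    have a1 : ∑ i, (if i = k then η i else 0) = η k := by
      rw [Finset.sum_ite_eq']; simp
    have a3 : ∑ i : Fin n, (if i = i then η k else 0) = (n : ℝ) • η k := by
      simp only [if_true, Finset.sum_const, Finset.card_univ, Fintype.card_fin]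
      rw [← Nat.cast_smul_eq_nsmul ℝ]
    rw [a1, a3, add_smul]
    rw [two_smul]
    abel
  have hWW : ∑ i, ∑ j, ∑ k, inner ℝ (Wt η i j k) (Wt η i j k) = 3 * (((n : ℝ) + 2) * E) := by
    rw [inner_Wt (Wt η) (Wt_sym η) η, hE]
    congr 1
    rw [Finset.mul_sum]
    refine Finset.sum_congr rfl fun k _ => ?_
    rw [htr k, inner_smul_left, hη, real_inner_self_eq_norm_sq]
    simp
  have h0 : 0 ≤ ∑ i, ∑ j, ∑ k, ‖((n : ℝ) + 2) • T i j k - Wt η i j k‖ ^ 2 :=
    Finset.sum_nonneg fun i _ => Finset.sum_nonneg fun j _ => Finset.sum_nonneg fun k _ =>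
      sq_nonneg _
  have h4 : ∑ i, ∑ j, ∑ k, ‖((n : ℝ) + 2) • T i j k - Wt η i j k‖ ^ 2
      = ((n : ℝ) + 2) ^ 2 * (∑ i, ∑ j, ∑ k, ‖T i j k‖ ^ 2)
        - 2 * ((n : ℝ) + 2) * (∑ i, ∑ j, ∑ k, inner ℝ (T i j k) (Wt η i j k))
        + ∑ i, ∑ j, ∑ k, inner ℝ (Wt η i j k) (Wt η i j k) := by
    simp_rw [Finset.mul_sum]
    simp_rw [← Finset.sum_sub_distrib, ← Finset.sum_add_distrib]
    refine Finset.sum_congr rfl fun i _ => Finset.sum_congr rfl fun j _ =>
      Finset.sum_congr rfl fun k _ => ?_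
    rw [norm_sub_sq_real, norm_smul, inner_smul_left, mul_pow, Real.norm_eq_abs, sq_abs,
      real_inner_self_eq_norm_sq]
    simp only [conj_trivial]
    ring
  rw [h4, hTW, hWW] at h0
  have h5 : 0 ≤ ((n : ℝ) + 2) * (((n : ℝ) + 2) * (∑ i, ∑ j, ∑ k, ‖T i j k‖ ^ 2) - 3 * E) := by
    nlinarith
  have h6 : 0 ≤ ((n : ℝ) + 2) * (∑ i, ∑ j, ∑ k, ‖T i j k‖ ^ 2) - 3 * E :=
    nonneg_of_mul_nonneg_right h5 hn
  rw [div_mul_eq_mul_div, div_le_iff₀ hn]
  linarith

end Helper13.PI
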