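import Mathlib
import Pool.Agent.Helper35.PI.St4

/-!
Module V5 of project PI (MP_b2fa09_gt): existence of countable smooth partitions of unity with
compact supports in chart domains.
-/

namespace Helper13.PI

open Helper35.PI
open scoped ContDiff Manifold Topology ENNReal BigOperators
open MeasureTheory Set Filter

theorem hV5 : StV5 := by
  intro n M _ _ _ _ _ _
  have : LocallyCompactSpace M := ChartedSpace.locallyCompactSpace (EE n) M
  have h1 : ∀ p : M, ∃ r > 0, Metric.closedBall (chartAt (EE n) p p) r ⊆
      (chartAt (EE n) p).target := by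
    intro p
    have : (chartAt (EE n) p).target ∈ 𝓝 (chartAt (EE n) p p) :=
      (chartAt (EE n) p).open_target.mem_nhds (mem_chart_target _ p)
    exact Metric.nhds_basis_closedBall.mem_iff.1 this
  choose r hr hrt using h1
  set V : M → Set M := fun p => (chartAt (EE n) p).source ∩
    (chartAt (EE n) p) ⁻¹' (Metric.ball (chartAt (EE n) p p) (r p)) with hV
  have hVo : ∀ p, IsOpen (V p) := fun p =>
    (chartAt (EE n) p).isOpen_inter_preimage Metric.isOpen_ball
  have hVn : ∀ p, V p ∈ 𝓝 p := fun p => (hVo p).mem_nhds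
    ⟨mem_chart_source _ p, Metric.mem_ball_self (hr p)⟩
  obtain ⟨s, hsc, hs⟩ := TopologicalSpace.countable_cover_nhds hVn
  have hsn : s.Nonempty := by
    rcases s.eq_empty_or_nonempty with h | h
    · exfalso
      rw [h] at hs
      simp only [mem_empty_iff_false, iUnion_of_empty, iUnion_empty] at hs
      exact (empty_ne_univ hs)
    · exact h
  obtain ⟨c, hc⟩ := hsc.exists_eq_range hsn
  have hcov : (univ : Set M) ⊆ ⋃ i, V (c i) := by
    intro x _
    have hx : x ∈ ⋃ p ∈ s, V p := by rw [hs]; trivial
    simp only [mem_iUnion] at hx ⊢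
    obtain ⟨p, hp, hxp⟩ := hx
    rw [hc] at hp
    obtain ⟨i, rfl⟩ := hp
    exact ⟨i, hxp⟩
  obtain ⟨f, hf⟩ := SmoothPartitionOfUnity.exists_isSubordinate (𝓡 n) (isClosed_univ (X := M))
    (fun i => V (c i)) (fun i => hVo _) hcov
  have hcl : ∀ i, V (c i) ⊆ (chartAt (EE n) (c i)).symm ''
      Metric.closedBall (chartAt (EE n) (c i) (c i)) (r (c i)) := by
    intro i x hx
    exact ⟨chartAt (EE n) (c i) x, Metric.ball_subset_closedBall hx.2,
      (chartAt (EE n) (c i)).left_inv hx.1⟩
  have hcp : ∀ i, IsCompact ((chartAt (EE n) (c i)).symm ''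
      Metric.closedBall (chartAt (EE n) (c i) (c i)) (r (c i))) := fun i =>
    (isCompact_closedBall _ _).image_of_continuousOn
      ((chartAt (EE n) (c i)).continuousOn_symm.mono (hrt _))
  refine ⟨c, fun i => f i, ?_, ?_, ?_, ?_, ?_, ?_⟩
  · intro i
    exact (f i).contMDiff
  · intro i q
    exact f.nonneg i q
  · intro i
    exact (hcp i).of_isClosed_subset (isClosed_tsupport _) ((hf i).trans (hcl i))
  · intro i
    exact (hf i).trans inter_subset_left
  · exact f.locallyFinite.closure
  · intro q
    have h2 := f.sum_eq_one (mem_univ q)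
    have h3 : (Function.support fun i => f i q).Finite := f.locallyFinite.point_finite q
    rw [finsum_eq_sum_of_support_subset (s := h3.toFinset) _ (by simp)] at h2
    rw [← h2]
    apply hasSum_sum_of_ne_finset_zero
    intro b hb
    simpa using hb

end Helper13.PI
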