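import Pool.Agent.Helper35.PI.St1

namespace Helper13.PI

open Helper35.PI
open scoped BigOperators

/-- OP1. -/
theorem hOP1 : StOP1 := by
  intro n hn V _ _ B hs ht y
  have hn0 : (0 : ℝ) < n := by exact_mod_cast (by omega : 0 < n)
  have hn2 : (2 : ℝ) ≤ n := by exact_mod_cast hn
  set p : Fin n → V := fun j => ∑ k, y k • B j k with hp
  set Y : ℝ := ∑ k, y k ^ 2 with hY
  set P : ℝ := ∑ j, ‖p j‖ ^ 2 with hP
  set q : V := ∑ k, y k • p k with hq
  set c : ℝ := ((n : ℝ) - 1) / n with hc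
  have hY0 : 0 ≤ Y := Finset.sum_nonneg fun k _ => sq_nonneg _
  have hP0 : 0 ≤ P := Finset.sum_nonneg fun k _ => sq_nonneg _
  have hc0 : 0 < c := by rw [hc]; apply div_pos <;> linarith
  -- the inner product with the test matrix
  have hq2 : ∑ i, ∑ j, (y i * y j) * inner ℝ (p j) (p i) = ‖q‖ ^ 2 := by
    rw [← real_inner_self_eq_norm_sq, hq, sum_inner]
    simp_rw [inner_sum]
    rw [Finset.sum_comm]
    refine Finset.sum_congr rfl fun j _ => Finset.sum_congr rfl fun i _ => ?_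
    rw [inner_smul_left, inner_smul_right]
    simp only [conj_trivial]
    ring
  have hq1 : ‖q‖ ^ 2 ≤ Y * P := by
    have h1 : ‖q‖ ≤ ∑ k, |y k| * ‖p k‖ := by
      rw [hq]
      refine (norm_sum_le _ _).trans (le_of_eq ?_)
      refine Finset.sum_congr rfl fun k _ => ?_
      rw [norm_smul, Real.norm_eq_abs]
    have h2 : ‖q‖ ^ 2 ≤ (∑ k, |y k| * ‖p k‖) ^ 2 := by
      apply pow_le_pow_left₀ (norm_nonneg _) h1
    have h3 := Finset.sum_mul_sq_le_sq_mul_sq Finset.univ (fun k => |y k|) (fun k => ‖p k‖)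
    refine h2.trans (h3.trans (le_of_eq ?_))
    simp only [sq_abs]
    rfl
  have hBp : ∑ i, ∑ j, y i * inner ℝ (B i j) (p j) = P := by
    rw [Finset.sum_comm, hP]
    refine Finset.sum_congr rfl fun j _ => ?_
    have e0 : inner ℝ (p j) (p j) = ∑ k, y k * inner ℝ (B j k) (p j) := by
      calc inner ℝ (p j) (p j) = inner ℝ (∑ k, y k • B j k) (p j) := rfl
        _ = _ := by
          rw [sum_inner]
          refine Finset.sum_congr rfl fun i _ => ?_
          rw [inner_smul_left]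
          simp only [conj_trivial]
    rw [← real_inner_self_eq_norm_sq, e0]
    refine Finset.sum_congr rfl fun i _ => ?_
    rw [hs i j]
  have hBp' : ∑ i, ∑ j, y j * inner ℝ (B i j) (p i) = P := by
    rw [Finset.sum_comm, ← hBp]
    refine Finset.sum_congr rfl fun j _ => Finset.sum_congr rfl fun i _ => ?_
    rw [hs i j]
  have hBq : ∑ i, inner ℝ (B i i) q = 0 := by
    rw [← sum_inner, ht, inner_zero_left]
  set M : Fin n → Fin n → V := fun i j =>
    (1 / 2 : ℝ) • (y i • p j + y j • p i) - (if i = j then (1 / n : ℝ) else 0) • q with hM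
  have h1 : ∑ i, ∑ j, inner ℝ (B i j) (M i j) = P := by
    have e : ∀ i j, inner ℝ (B i j) (M i j) = (1 / 2) * (y i * inner ℝ (B i j) (p j))
        + (1 / 2) * (y j * inner ℝ (B i j) (p i))
        - (if i = j then (1 / n : ℝ) * inner ℝ (B i i) q else 0) := by
      intro i j
      rw [hM]
      simp only [inner_sub_right, inner_smul_right, inner_add_right]
      by_cases h : i = j
      · subst h; simp only [if_true]; ring
      · simp only [if_neg h]; ring
    have e1 : ∑ i, ∑ j, (1 / 2) * (y i * inner ℝ (B i j) (p j)) = (1 / 2) * P := by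
      rw [← hBp]; simp_rw [Finset.mul_sum]
    have e2 : ∑ i, ∑ j, (1 / 2) * (y j * inner ℝ (B i j) (p i)) = (1 / 2) * P := by
      rw [← hBp']; simp_rw [Finset.mul_sum]
    have e3 : ∑ i, (1 / n : ℝ) * inner ℝ (B i i) q = 0 := by
      rw [← Finset.mul_sum, hBq, mul_zero]
    simp_rw [e]
    simp only [Finset.sum_sub_distrib, Finset.sum_add_distrib,
      Finset.sum_ite_eq, Finset.mem_univ, if_true]
    rw [e1, e2, e3]
    ring
  have h2 : ∑ i, ∑ j, ‖M i j‖ ^ 2 = (Y * P + ‖q‖ ^ 2) / 2 - ‖q‖ ^ 2 / n := by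
    have e : ∀ i j, ‖M i j‖ ^ 2 = (1 / 4) * (y i ^ 2 * ‖p j‖ ^ 2)
        + (1 / 4) * (y j ^ 2 * ‖p i‖ ^ 2) + (1 / 2) * ((y i * y j) * inner ℝ (p j) (p i))
        - (if i = j then (2 / n : ℝ) * (inner ℝ (y i • p i) q) - (1 / n ^ 2) * ‖q‖ ^ 2
          else 0) := by
      intro i j
      rw [hM]
      simp only [← real_inner_self_eq_norm_sq]
      by_cases h : i = j
      · subst h
        simp only [if_true, inner_sub_left, inner_sub_right, inner_smul_right,
          inner_smul_left, inner_add_right, inner_add_left, conj_trivial]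
        rw [real_inner_comm (p i) q]
        field_simp
        ring
      · simp only [if_neg h, inner_sub_left, inner_sub_right, inner_smul_right,
          inner_smul_left, inner_add_right, inner_add_left, conj_trivial]
        rw [real_inner_comm (p j) (p i)]
        ring
    have e1 : ∑ i, ∑ j, (1 / 4 : ℝ) * (y i ^ 2 * ‖p j‖ ^ 2) = (1 / 4) * (Y * P) := by
      rw [hY, hP, Finset.sum_mul_sum]; simp_rw [Finset.mul_sum]
    have e2 : ∑ i, ∑ j, (1 / 4 : ℝ) * (y j ^ 2 * ‖p i‖ ^ 2) = (1 / 4) * (Y * P) := by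
      rw [Finset.sum_comm, ← e1]
    have e3 : ∑ i, ∑ j, (1 / 2 : ℝ) * ((y i * y j) * inner ℝ (p j) (p i))
        = (1 / 2) * ‖q‖ ^ 2 := by
      rw [← hq2]; simp_rw [Finset.mul_sum]
    have e4 : ∑ i : Fin n, (2 / n : ℝ) * (inner ℝ (y i • p i) q) = (2 / n) * ‖q‖ ^ 2 := by
      rw [← Finset.mul_sum, ← sum_inner, ← real_inner_self_eq_norm_sq]
    have e5 : ∑ i : Fin n, (1 / n ^ 2) * ‖q‖ ^ 2 = (1 / n) * ‖q‖ ^ 2 := by
      rw [Finset.sum_const, Finset.card_univ, Fintype.card_fin, nsmul_eq_mul]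
      field_simp
    simp_rw [e]
    simp only [Finset.sum_sub_distrib, Finset.sum_add_distrib,
      Finset.sum_ite_eq, Finset.mem_univ, if_true]
    rw [e1, e2, e3, e4, e5]
    ring
  have h2' : ∑ i, ∑ j, ‖M i j‖ ^ 2 ≤ c * (Y * P) := by
    rw [h2, hc]
    have h5 : 0 ≤ 1 / 2 - 1 / (n : ℝ) := by
      rw [sub_nonneg]
      exact one_div_le_one_div_of_le (by norm_num) hn2
    have h6 := mul_le_mul_of_nonneg_left hq1 h5
    have h7 : ((n : ℝ) - 1) / n = 1 - 1 / n := by field_simp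
    rw [h7]
    have h8 : ‖q‖ ^ 2 / (n : ℝ) = 1 / n * ‖q‖ ^ 2 := by ring
    rw [h8]
    nlinarith
  have h3 : 0 ≤ ∑ i, ∑ j, ‖(c * Y) • B i j - M i j‖ ^ 2 :=
    Finset.sum_nonneg fun i _ => Finset.sum_nonneg fun j _ => sq_nonneg _
  have h4 : ∑ i, ∑ j, ‖(c * Y) • B i j - M i j‖ ^ 2
      = (c * Y) ^ 2 * (∑ i, ∑ j, ‖B i j‖ ^ 2) - 2 * (c * Y) * P + ∑ i, ∑ j, ‖M i j‖ ^ 2 := by
    rw [← h1]
    simp_rw [Finset.mul_sum]
    rw [← Finset.sum_sub_distrib, ← Finset.sum_add_distrib]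
    refine Finset.sum_congr rfl fun i _ => ?_
    rw [← Finset.sum_sub_distrib, ← Finset.sum_add_distrib]
    refine Finset.sum_congr rfl fun j _ => ?_
    rw [norm_sub_sq_real, norm_smul, inner_smul_left, mul_pow, Real.norm_eq_abs, sq_abs]
    simp only [conj_trivial]
    ring
  rw [h4] at h3
  have h5 : 0 ≤ (c * Y) * ((c * Y) * (∑ i, ∑ j, ‖B i j‖ ^ 2) - P) := by nlinarith
  rcases hY0.eq_or_lt with h | h
  · -- `Y = 0`
    have hy : ∀ k, y k = 0 := by
      intro k
      have := (Finset.sum_eq_zero_iff_of_nonneg (fun k _ => sq_nonneg (y k))).1 h.symm k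
        (Finset.mem_univ k)
      exact pow_eq_zero_iff (two_ne_zero) |>.1 this
    have hP' : P = 0 := by
      rw [hP]
      refine Finset.sum_eq_zero fun j _ => ?_
      rw [hp]
      simp [hy]
    rw [hP', ← h, mul_zero]
  · have h6 : 0 ≤ (c * Y) * (∑ i, ∑ j, ‖B i j‖ ^ 2) - P :=
      nonneg_of_mul_nonneg_right h5 (mul_pos hc0 h)
    linarith [h6, mul_right_comm c (∑ i, ∑ j, ‖B i j‖ ^ 2) Y]

end Helper13.PI
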